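import Pool.Agent.TH133.MZ.Padic

/-!
# MP_03df5c_nt: relations of large weight between real and `p`-adic multiple zeta values

Let `zp` be a function on the admissible indices with values in `ℚ_p` which satisfies the same
product formulas as the real multiple zeta values (for instance Furusho's `p`-adic multiple zeta
values), not identically zero. The following are equivalent.

1. Every polynomial relation with rational coefficients between real multiple zeta values holds for
   the values of `zp`.
2. There is an `N` such that every linear relation with rational coefficients between real multiple
   zeta values of weights at least `N` holds for the values of `zp`.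
3. For every `l` there is an `N₀` such that this is true for the linear relations between real
   multiple zeta values with weights in `[N, N + l]`, for all `N ≥ N₀`.
-/

namespace Pool.Agent.Results.MP_03df5c_nt.LargeWeights

open Pool.Agent.TH133.MZ

/-- **All algebraic relations between real multiple zeta values hold for the `p`-adic ones, if and
only if the linear relations in bounded ranges of large weights do.** -/
theorem result {p : ℕ} [Fact p.Prime] {A : Type*} [CommRing A] [Algebra ℚ A] {e : Adm → A}
    {Z : A →ₐ[ℚ] ℝ} {Zp : A →ₐ[ℚ] ℚ_[p]} {zp : Adm → ℚ_[p]} (h : IsStuffleModel e Z Zp zp)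
    (hne : ∃ t, zp t ≠ 0) :
    List.TFAE [
      ∀ f : MvPolynomial Adm ℚ, MvPolynomial.aeval zetaReal f = 0 → MvPolynomial.aeval zp f = 0,
      ∃ N : ℕ, ∀ b : ℕ, RelationsTransfer zp N b,
      ∀ l : ℕ, ∃ N₀ : ℕ, ∀ N : ℕ, N₀ ≤ N → RelationsTransfer zp N (N + l)] :=
  padic_tfae h hne

end Pool.Agent.Results.MP_03df5c_nt.LargeWeights
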