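import Mathlib
import Pool.Agent.TH120.PM.Pi

/-!
# What Q1 implies: transcendence of multiple zeta values, also over `ℚ(π)`
-/

set_option autoImplicit false

open MvPolynomial Pool.Agent.TH133.MZ Pool.Agent.TH120.PM

namespace Pool.Agent.Results.MP_03df5c_nt.TranscendenceFromQ1

/-- `y` is a root of a nonzero polynomial of degree at most `n` with coefficients in `ℚ[π]`, i.e. `y` is algebraic
of degree at most `n` over `ℚ(π)` -/
def AlgOverPi (n : ℕ) (y : ℝ) : Prop :=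
  ∃ g : Polynomial (Polynomial ℚ), g ≠ 0 ∧ g.natDegree ≤ n ∧
    (g.map (Polynomial.aeval (Real.pi)).toRingHom).eval y = 0

/-- `f` runs through the rational polynomials in the admissible indices, `f(ζ) = aeval zetaReal f`,
`f(ζ_p) = aeval (zp p) f`. -/
theorem result (zp : ∀ (p : ℕ) [Fact p.Prime], Adm → ℚ_[p])
    (h2 : ∀ (p : ℕ) [Fact p.Prime], zp p (single 2 le_rfl) = 0) (hdiv : Divisible zp) :
    (∀ (p : ℕ) [Fact p.Prime], Transfers (zp p) → ∀ (f : MvPolynomial Adm ℚ) (n : ℕ),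
      AlgOverPi n (aeval zetaReal f) →
        ∃ q : Polynomial ℚ, q ≠ 0 ∧ q.natDegree ≤ n ∧ Polynomial.aeval (aeval (zp p) f) q = 0) ∧
    (∀ (p : ℕ) [Fact p.Prime], Transfers (zp p) → ∀ (n : ℕ) (f : Fin (n + 1) → MvPolynomial Adm ℚ),
      Real.pi * ∑ j, aeval zetaReal (f j) * Real.pi ^ (j : ℕ) ≠ 1) ∧
    ((∀ N : ℕ, ∃ (p : ℕ) (_ : Fact p.Prime), N ≤ p ∧ Transfers (zp p)) →
      (∀ f : MvPolynomial Adm ℚ, aeval zetaReal f = ((constantCoeff f : ℚ) : ℝ) ∨
        Transcendental ℚ (aeval zetaReal f)) ∧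
      (∀ n : ℕ, 2 ≤ n → Transcendental ℚ (∑' k : ℕ, 1 / ((k : ℝ) + 1) ^ n))) ∧
    (∀ f : MvPolynomial Adm ℚ, constantCoeff f = 0 → (∃ n, AlgOverPi n (aeval zetaReal f)) →
      ∃ N : ℕ, ∀ (p : ℕ) [Fact p.Prime], N ≤ p → Transfers (zp p) → aeval (zp p) f = 0) ∧
    (∀ f : MvPolynomial Adm ℚ, aeval zetaReal f = 0 → ∀ w : ℕ, (∀ v < w, part v f = 0) →
      ∃ N : ℕ, ∀ (p : ℕ) [Fact p.Prime], N ≤ p → Transfers (zp p) →
        ‖aeval (zp p) (part w f)‖ ≤ ((p : ℝ)⁻¹) ^ (w + 1)) := by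
  refine ⟨?_, ?_, ?_, ?_, ?_⟩
  · rintro p _ ht f n ⟨g, hg, hn, h⟩
    obtain ⟨q, hq, hqn, h3⟩ := degree_le f g hg h
    exact ⟨q, hq, hqn.trans hn, h3 p (zp p) (h2 p) ht⟩
  · intro p _ ht n f
    have h := pi_unit (zp p) (h2 p) ht (∑ j : Fin (n + 1), Polynomial.C (f j) * Polynomial.X ^ (j : ℕ))
    rw [map_sum] at h
    simpa only [map_mul, map_pow, evR_C, evR_X] using h
  · intro hinf
    refine ⟨fun f => ?_, fun n hn => transc_single hdiv hinf n hn⟩
    by_cases h : aeval zetaReal f = ((constantCoeff f : ℚ) : ℝ)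
    · exact Or.inl h
    · right
      have h1 : aeval zetaReal (f - C (constantCoeff f)) = aeval zetaReal f - ((constantCoeff f : ℚ) : ℝ) := by
        rw [map_sub, aeval_C]
        rfl
      have h3 := transc hdiv hinf (f - C (constantCoeff f)) (by rw [map_sub, constantCoeff_C, sub_self])
        (by rw [h1]; exact sub_ne_zero.2 h)
      rw [h1] at h3
      intro halg
      exact h3 (halg.sub (isAlgebraic_algebraMap (R := ℚ) (A := ℝ) (constantCoeff f)))
  · rintro f hf ⟨n, g, hg, -, h⟩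
    exact vanish hdiv h2 f hf g hg h
  · exact fun f hf w hw => lowest hdiv f hf w hw

end Pool.Agent.Results.MP_03df5c_nt.TranscendenceFromQ1
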